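import Pool.Agent.H19.Wa.Prob

/-!
# Sums of shifted powers: the missed reals

`B A k s M η a` is the set of reals that are not within `η` of a number
`m + ∑ (x_i + a_i)^k` with `m` in `A` and natural numbers `x_i ≥ M`.
-/

set_option autoImplicit false

namespace Pool.H48.Ws

open MeasureTheory Set Filter Topology

noncomputable section

/-- the missed reals -/
def B (A : Set ℝ) (k s M : ℕ) (η : ℝ) (a : Fin s → ℝ) : Set ℝ :=
  {τ | ∀ m ∈ A, ∀ x : Fin s → ℕ, (∀ i, M ≤ x i) → η ≤ |m + ∑ i, ((x i : ℝ) + a i) ^ k - τ|}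

/-- dyadic interval -/
def D (m : ℕ) : Set ℝ := Ico ((2 : ℝ) ^ m) (2 ^ (m + 1))

/-- measure of the missed reals in a dyadic interval -/
def V (A : Set ℝ) (k s M : ℕ) (η : ℝ) (a : Fin s → ℝ) (m : ℕ) : ENNReal :=
  volume (B A k s M η a ∩ D m)

/-- weighted total measure of the missed reals -/
def W (A : Set ℝ) (k s M : ℕ) (η γ : ℝ) (a : Fin s → ℝ) : ENNReal :=
  ∑' m : ℕ, ENNReal.ofReal ((2 : ℝ) ^ (-(γ * m))) * V A k s M η a m

end

theorem isClosed_joint (A : Set ℝ) (k s M : ℕ) (η : ℝ) :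
    IsClosed {p : (Fin s → ℝ) × ℝ | p.2 ∈ B A k s M η p.1} := by
  have h : {p : (Fin s → ℝ) × ℝ | p.2 ∈ B A k s M η p.1} =
      ⋂ m ∈ A, ⋂ x : Fin s → ℕ, ⋂ _ : ∀ i, M ≤ x i,
        {p : (Fin s → ℝ) × ℝ | η ≤ |m + ∑ i, ((x i : ℝ) + p.1 i) ^ k - p.2|} := by
    ext p
    simp [B]
  rw [h]
  refine isClosed_biInter fun m _ => isClosed_iInter fun x => isClosed_iInter fun _ => ?_
  exact isClosed_le continuous_const (by fun_prop)

theorem isClosed_B (A : Set ℝ) (k s M : ℕ) (η : ℝ) (a : Fin s → ℝ) :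
    IsClosed (B A k s M η a) := by
  have h := (isClosed_joint A k s M η).preimage (Continuous.prodMk_right a)
  exact h

theorem measurableSet_B (A : Set ℝ) (k s M : ℕ) (η : ℝ) (a : Fin s → ℝ) :
    MeasurableSet (B A k s M η a) := (isClosed_B A k s M η a).measurableSet

theorem measurableSet_D (m : ℕ) : MeasurableSet (D m) := measurableSet_Ico

theorem measurable_V (A : Set ℝ) (k s M : ℕ) (η : ℝ) (m : ℕ) :
    Measurable (fun a : Fin s → ℝ => V A k s M η a m) := by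
  have hS : MeasurableSet ({p : (Fin s → ℝ) × ℝ | p.2 ∈ B A k s M η p.1} ∩
      {p : (Fin s → ℝ) × ℝ | p.2 ∈ D m}) :=
    (isClosed_joint A k s M η).measurableSet.inter (measurable_snd (measurableSet_D m))
  exact measurable_measure_prodMk_left (ν := (volume : Measure ℝ)) hS

theorem measurable_W (A : Set ℝ) (k s M : ℕ) (η γ : ℝ) :
    Measurable (fun a : Fin s → ℝ => W A k s M η γ a) := by
  unfold W
  exact Measurable.ennreal_tsum (fun m => (measurable_V A k s M η m).const_mul _)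

theorem volume_D (m : ℕ) : volume (D m) = ENNReal.ofReal ((2 : ℝ) ^ m) := by
  unfold D
  rw [Real.volume_Ico]
  congr 1
  ring

theorem V_le (A : Set ℝ) (k s M : ℕ) (η : ℝ) (a : Fin s → ℝ) (m : ℕ) :
    V A k s M η a m ≤ ENNReal.ofReal ((2 : ℝ) ^ m) := by
  rw [← volume_D]
  exact measure_mono inter_subset_right

/-- the missed set for the enlarged system, seen through one value of the new variable -/
theorem mem_B_cons {A : Set ℝ} {k s M : ℕ} {η : ℝ} {a : Fin s → ℝ} {b τ : ℝ}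
    (h : τ ∈ B A k (s + 1) M η (Fin.cons b a)) (x : ℕ) (hx : M ≤ x) :
    τ - ((x : ℝ) + b) ^ k ∈ B A k s M η a := by
  intro m hm y hy
  have h1 := h m hm (Fin.cons x y) (by
    intro i
    refine Fin.cases ?_ (fun j => ?_) i
    · simpa using hx
    · simpa using hy j)
  rw [Fin.sum_univ_succ] at h1
  simp only [Fin.cons_zero, Fin.cons_succ] at h1
  have e : m + ∑ i, ((y i : ℝ) + a i) ^ k - (τ - ((x : ℝ) + b) ^ k) =
      m + (((x : ℝ) + b) ^ k + ∑ i, ((y i : ℝ) + a i) ^ k) - τ := by ring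
  rw [e]
  exact h1

/-- enlarging the window -/
theorem B_near {A : Set ℝ} {k s M : ℕ} {η : ℝ} {a : Fin s → ℝ} {τ τ' : ℝ}
    (h : τ ∈ B A k s M (2 * η) a) (h1 : |τ' - τ| ≤ η) : τ' ∈ B A k s M η a := by
  intro m hm x hx
  have h2 := h m hm x hx
  have h3 := abs_sub_abs_le_abs_sub (m + ∑ i, ((x i : ℝ) + a i) ^ k - τ)
    (m + ∑ i, ((x i : ℝ) + a i) ^ k - τ')
  have h4 : (m + ∑ i, ((x i : ℝ) + a i) ^ k - τ) - (m + ∑ i, ((x i : ℝ) + a i) ^ k - τ') =
      τ' - τ := by ring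
  rw [h4] at h3
  linarith

end Pool.H48.Ws
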