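import Pool.Agent.H48.Ws.Basic

/-!
# The doubling lemma

For `g z = (z+d)^k - z^k` (expanding by `k d^(k-1)` on `z ≥ 0`), and `E` the missed reals of the smaller
system in `[0, 2^(m+1))`: `n k d^(k-1) ∫_b V(cons b a) m ≤ |E|^2`.
-/

set_option autoImplicit false

namespace Pool.H48.Ws

open MeasureTheory Set Filter Topology

/-- the difference of two powers -/
noncomputable def g (k d : ℕ) (z : ℝ) : ℝ := (z + d) ^ k - z ^ k

theorem hasDerivAt_g (k d : ℕ) (z : ℝ) :
    HasDerivAt (g k d) (k * (z + d) ^ (k - 1) - k * z ^ (k - 1)) z := by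
  unfold g
  have h1 : HasDerivAt (fun z : ℝ => (z + d) ^ k) (k * (z + d) ^ (k - 1)) z := by
    have h0 : HasDerivAt (fun z : ℝ => z + d) 1 z := (hasDerivAt_id z).add_const (d : ℝ)
    have h3 := h0.fun_pow k
    simpa using h3
  have h2 : HasDerivAt (fun z : ℝ => z ^ k) (k * z ^ (k - 1)) z := hasDerivAt_pow k z
  exact h1.sub h2

theorem deriv_g_ge (k d : ℕ) (hk : 2 ≤ k) {z : ℝ} (hz : 0 ≤ z) :
    (k : ℝ) * (d : ℝ) ^ (k - 1) ≤ k * (z + d) ^ (k - 1) - k * z ^ (k - 1) := by
  have h := pow_add_pow_le hz (Nat.cast_nonneg (α := ℝ) d) (show k - 1 ≠ 0 by omega)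
  have hk0 : (0 : ℝ) ≤ k := by positivity
  nlinarith

theorem g_strictMonoOn (k d : ℕ) (hk : 2 ≤ k) (hd : 1 ≤ d) : StrictMonoOn (g k d) (Ici 0) := by
  apply strictMonoOn_of_deriv_pos (convex_Ici 0)
  · unfold g; fun_prop
  · intro z hz
    rw [interior_Ici] at hz
    rw [(hasDerivAt_g k d z).deriv]
    refine lt_of_lt_of_le ?_ (deriv_g_ge k d hk (le_of_lt hz))
    have h1 : (0 : ℝ) < k := by exact_mod_cast (by omega : 0 < k)
    have h2 : (0 : ℝ) < d := by exact_mod_cast hd
    positivity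

/-- preimages under the expanding map -/
theorem expand (k d : ℕ) (hk : 2 ≤ k) (hd : 1 ≤ d) (E : Set ℝ) (hE : MeasurableSet E) (u : ℝ) :
    ENNReal.ofReal ((k : ℝ) * (d : ℝ) ^ (k - 1)) * volume {z : ℝ | 0 ≤ z ∧ u - g k d z ∈ E} ≤
      volume E := by
  set S : Set ℝ := {z : ℝ | 0 ≤ z ∧ u - g k d z ∈ E} with hS
  have hcont : Continuous (fun z : ℝ => u - g k d z) := by unfold g; fun_prop
  have hSm : MeasurableSet S :=
    (measurableSet_Ici (a := (0 : ℝ))).inter (hcont.measurable hE)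
  have hder : ∀ z ∈ S, HasDerivWithinAt (fun z : ℝ => u - g k d z)
      (-(k * (z + d) ^ (k - 1) - k * z ^ (k - 1))) S z := by
    intro z _
    exact ((hasDerivAt_g k d z).const_sub u).hasDerivWithinAt
  have hinj : InjOn (fun z : ℝ => u - g k d z) S := by
    intro x hx y hy hxy
    have h1 : g k d x = g k d y := by
      simp only at hxy; linarith
    exact (g_strictMonoOn k d hk hd).injOn hx.1 hy.1 h1
  have h := lintegral_image_eq_lintegral_abs_deriv_mul hSm hder hinj (fun _ => 1)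
  simp only [mul_one, lintegral_const, Measure.restrict_apply MeasurableSet.univ, univ_inter,
    one_mul] at h
  calc ENNReal.ofReal ((k : ℝ) * (d : ℝ) ^ (k - 1)) * volume S
      = ∫⁻ _z in S, ENNReal.ofReal ((k : ℝ) * (d : ℝ) ^ (k - 1)) := by
        rw [setLIntegral_const]
    _ ≤ ∫⁻ z in S, ENNReal.ofReal |-(k * (z + d) ^ (k - 1) - k * z ^ (k - 1))| := by
        apply setLIntegral_mono' hSm
        intro z hz
        apply ENNReal.ofReal_le_ofReal
        rw [abs_neg]
        exact (deriv_g_ge k d hk hz.1).trans (le_abs_self _)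
    _ = volume ((fun z : ℝ => u - g k d z) '' S) := h.symm
    _ ≤ volume E := by
        apply measure_mono
        rintro _ ⟨z, hz, rfl⟩
        exact hz.2

/-- the doubling lemma -/
theorem double (A : Set ℝ) (k s M : ℕ) (hk : 2 ≤ k) (η : ℝ) (a : Fin s → ℝ) (m X d n : ℕ)
    (hX : (X : ℝ) ^ k ≤ 2 ^ m) (hd : 1 ≤ d) (hn : M + n + d ≤ X) :
    (n : ENNReal) * ENNReal.ofReal ((k : ℝ) * (d : ℝ) ^ (k - 1)) *
      ∫⁻ b in Ico (0 : ℝ) 1, V A k (s + 1) M η (Fin.cons b a) m ≤
      volume (B A k s M η a ∩ Ico 0 (2 ^ (m + 1))) ^ 2 := by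
  set E : Set ℝ := B A k s M η a ∩ Ico 0 (2 ^ (m + 1)) with hEdef
  have hE : MeasurableSet E := (measurableSet_B A k s M η a).inter measurableSet_Ico
  have hgc : Continuous (g k d) := by unfold g; fun_prop
  -- sections
  let S : ℕ → Set (ℝ × ℝ) := fun x =>
    {p | p.1 ∈ Ico (0 : ℝ) 1 ∧ p.2 ∈ E ∧ p.2 - g k d ((M : ℝ) + x + p.1) ∈ E}
  have hS : ∀ x, MeasurableSet (S x) := by
    intro x
    refine (measurable_fst measurableSet_Ico).inter ((measurable_snd hE).inter ?_)
    have hc : Continuous (fun p : ℝ × ℝ => p.2 - g k d ((M : ℝ) + x + p.1)) := by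
      fun_prop
    exact hc.measurable hE
  -- first claim
  have hA : ∀ b ∈ Ico (0 : ℝ) 1, ∀ x ∈ Finset.range n,
      V A k (s + 1) M η (Fin.cons b a) m ≤ volume (Prod.mk b ⁻¹' S x) := by
    intro b hb x hx
    rw [Finset.mem_range] at hx
    set c : ℝ := ((M + x : ℕ) : ℝ) + b with hc
    have hc0 : 0 ≤ c := by have := hb.1; positivity
    have hcX : c + d ≤ X := by
      have h1 : ((M + n + d : ℕ) : ℝ) ≤ X := by exact_mod_cast hn
      have h2 : ((x + 1 : ℕ) : ℝ) ≤ n := by exact_mod_cast hx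
      have h3 := hb.2
      push_cast at h1 h2
      rw [hc]; push_cast
      linarith
    have hd0 : (0 : ℝ) ≤ d := by positivity
    have hck : c ^ k ≤ 2 ^ m := (pow_le_pow_left₀ hc0 (by linarith) k).trans hX
    have hck' : (c + d) ^ k ≤ 2 ^ m := (pow_le_pow_left₀ (by linarith) hcX k).trans hX
    have hsub : B A k (s + 1) M η (Fin.cons b a) ∩ D m ⊆
        (fun τ : ℝ => τ - c ^ k) ⁻¹' (Prod.mk b ⁻¹' S x) := by
      intro τ hτ
      have hτ1 := hτ.2.1
      have hτ2 := hτ.2.2
      refine ⟨hb, ⟨mem_B_cons hτ.1 (M + x) (by omega), ?_, ?_⟩, ?_, ?_, ?_⟩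
      · show 0 ≤ τ - c ^ k
        linarith
      · show τ - c ^ k < 2 ^ (m + 1)
        have : 0 ≤ c ^ k := by positivity
        linarith
      · have h4 := mem_B_cons hτ.1 (M + x + d) (by omega)
        have h5 : τ - c ^ k - g k d ((M : ℝ) + x + b) = τ - (((M + x + d : ℕ) : ℝ) + b) ^ k := by
          unfold g
          rw [hc]
          push_cast
          ring
        show τ - c ^ k - g k d ((M : ℝ) + x + b) ∈ B A k s M η a
        rw [h5]
        exact h4
      · show 0 ≤ τ - c ^ k - g k d ((M : ℝ) + x + b)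
        unfold g
        have h6 : (M : ℝ) + x + b = c := by rw [hc]; push_cast; ring
        rw [h6]
        linarith
      · show τ - c ^ k - g k d ((M : ℝ) + x + b) < 2 ^ (m + 1)
        unfold g
        have h6 : (M : ℝ) + x + b = c := by rw [hc]; push_cast; ring
        rw [h6]
        have : 0 ≤ (c + d) ^ k := by positivity
        linarith
    calc V A k (s + 1) M η (Fin.cons b a) m
        ≤ volume ((fun τ : ℝ => τ - c ^ k) ⁻¹' (Prod.mk b ⁻¹' S x)) := measure_mono hsub
      _ = volume (Prod.mk b ⁻¹' S x) := by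
          have h7 : (fun τ : ℝ => τ - c ^ k) = (fun τ : ℝ => τ + (-(c ^ k))) := by
            funext τ; ring
          rw [h7]
          exact measure_preimage_add_right volume _ _
  -- second claim
  have hC : ∀ u ∈ E, ENNReal.ofReal ((k : ℝ) * (d : ℝ) ^ (k - 1)) *
      ∑ x ∈ Finset.range n, volume ((fun b => (b, u)) ⁻¹' S x) ≤ volume E := by
    intro u hu
    have h1 : ∀ x ∈ Finset.range n, volume ((fun b => (b, u)) ⁻¹' S x) =
        volume (Ico ((M : ℝ) + x) ((M : ℝ) + x + 1) ∩ {z : ℝ | 0 ≤ z ∧ u - g k d z ∈ E}) := by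
      intro x _
      have h2 : (fun b => (b, u)) ⁻¹' S x = (fun b : ℝ => ((M : ℝ) + x) + b) ⁻¹'
          (Ico ((M : ℝ) + x) ((M : ℝ) + x + 1) ∩ {z : ℝ | 0 ≤ z ∧ u - g k d z ∈ E}) := by
        ext b
        simp only [S, mem_preimage, mem_ofPred_eq, mem_inter_iff, mem_Ico]
        constructor
        · rintro ⟨⟨h3, h4⟩, _, h5⟩
          refine ⟨⟨by linarith, by linarith⟩, by positivity, h5⟩
        · rintro ⟨⟨h3, h4⟩, _, h5⟩
          exact ⟨⟨by linarith, by linarith⟩, hu, h5⟩
      rw [h2]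
      exact measure_preimage_add volume _ _
    rw [Finset.sum_congr rfl h1]
    have hdisj : PairwiseDisjoint (↑(Finset.range n) : Set ℕ) (fun x : ℕ =>
        Ico ((M : ℝ) + x) ((M : ℝ) + x + 1) ∩ {z : ℝ | 0 ≤ z ∧ u - g k d z ∈ E}) := by
      intro x _ y _ hxy
      rw [Function.onFun, Set.disjoint_left]
      rintro z ⟨⟨h3, h4⟩, _⟩ ⟨⟨h5, h6⟩, _⟩
      apply hxy
      have h7 : (x : ℝ) < y + 1 := by linarith
      have h8 : (y : ℝ) < x + 1 := by linarith
      have h9 : x < y + 1 := by exact_mod_cast h7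
      have h10 : y < x + 1 := by exact_mod_cast h8
      omega
    have hcont : Continuous (fun z : ℝ => u - g k d z) := by fun_prop
    have hSm : MeasurableSet {z : ℝ | 0 ≤ z ∧ u - g k d z ∈ E} :=
      (measurableSet_Ici (a := (0 : ℝ))).inter (hcont.measurable hE)
    rw [← measure_biUnion_finset hdisj (fun x _ => measurableSet_Ico.inter hSm)]
    refine le_trans ?_ (expand k d hk hd E hE u)
    gcongr
    apply iUnion₂_subset
    intro x _
    exact inter_subset_right
  calc (n : ENNReal) * ENNReal.ofReal ((k : ℝ) * (d : ℝ) ^ (k - 1)) *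
      ∫⁻ b in Ico (0 : ℝ) 1, V A k (s + 1) M η (Fin.cons b a) m
      = ENNReal.ofReal ((k : ℝ) * (d : ℝ) ^ (k - 1)) *
        ∫⁻ b in Ico (0 : ℝ) 1, (n : ENNReal) * V A k (s + 1) M η (Fin.cons b a) m := by
        rw [lintegral_const_mul' _ _ (ENNReal.natCast_ne_top n)]
        ring
    _ ≤ ENNReal.ofReal ((k : ℝ) * (d : ℝ) ^ (k - 1)) *
        ∫⁻ b in Ico (0 : ℝ) 1, ∑ x ∈ Finset.range n, volume (Prod.mk b ⁻¹' S x) := by
        refine mul_le_mul_right (setLIntegral_mono' measurableSet_Ico ?_) _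
        intro b hb
        calc (n : ENNReal) * V A k (s + 1) M η (Fin.cons b a) m
            = ∑ _x ∈ Finset.range n, V A k (s + 1) M η (Fin.cons b a) m := by simp
          _ ≤ _ := Finset.sum_le_sum (fun x hx => hA b hb x hx)
    _ ≤ ENNReal.ofReal ((k : ℝ) * (d : ℝ) ^ (k - 1)) *
        ∑ x ∈ Finset.range n, ∫⁻ b, volume (Prod.mk b ⁻¹' S x) := by
        gcongr
        rw [lintegral_finsetSum _ (fun x _ => measurable_measure_prodMk_left (hS x))]
        exact Finset.sum_le_sum (fun x _ => setLIntegral_le_lintegral _ _)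
    _ = ENNReal.ofReal ((k : ℝ) * (d : ℝ) ^ (k - 1)) *
        ∑ x ∈ Finset.range n, ∫⁻ u, volume ((fun b => (b, u)) ⁻¹' S x) := by
        congr 1
        refine Finset.sum_congr rfl (fun x _ => ?_)
        rw [← Measure.prod_apply (hS x), ← Measure.prod_apply_symm (hS x)]
    _ = ∫⁻ u, ENNReal.ofReal ((k : ℝ) * (d : ℝ) ^ (k - 1)) *
        ∑ x ∈ Finset.range n, volume ((fun b => (b, u)) ⁻¹' S x) := by
        rw [lintegral_const_mul' _ _ ENNReal.ofReal_ne_top, lintegral_finsetSum _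
          (fun x _ => measurable_measure_prodMk_right (hS x))]
    _ ≤ ∫⁻ u, E.indicator (fun _ => volume E) u := by
        apply lintegral_mono
        intro u
        by_cases hu : u ∈ E
        · simp only [indicator_of_mem hu]
          exact hC u hu
        · have h0 : ∀ x, (fun b => (b, u)) ⁻¹' S x = ∅ := by
            intro x
            ext b
            simp only [S, mem_preimage, mem_ofPred_eq, mem_empty_iff_false, iff_false]
            rintro ⟨_, h1, _⟩
            exact hu h1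
          simp [h0]
    _ = volume E ^ 2 := by
        rw [lintegral_indicator hE, setLIntegral_const, sq]

end Pool.H48.Ws
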