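import Pool.Agent.H48.Ws.Base

/-!
# Almost every shift: k + log2 k + 2 shifted k-th powers suffice
-/

set_option autoImplicit false

namespace Pool.H48.Ws

open MeasureTheory Set Filter Topology

theorem chain (k s M : ℕ) (hk : 4 ≤ k) (hs : k + 1 ≤ s) (η : ℝ) (hη : 0 < η) (i : ℕ) :
    ∀ γ' : ℝ, 0 ≤ γ' → 1 - 2 ^ i * (((s : ℝ) - k) / k) < γ' →
      ∀ᵐ a ∂Pool.H19.Wa.PP (s + i), W {0} k (s + i) M η γ' a ≠ ⊤ := by
  induction i with
  | zero =>
    intro γ' _ h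
    exact base k s M hk hs η γ' hη (by simpa using h)
  | succ i ih =>
    intro γ' h0 h
    set θ : ℝ := ((s : ℝ) - k) / k with hθ
    set γ : ℝ := (max (1 - 2 ^ i * θ) 0 + (1 + γ') / 2) / 2 with hγ
    have h1 : 1 - 2 ^ i * θ < (1 + γ') / 2 := by
      rw [pow_succ] at h
      linarith
    have h2 : max (1 - 2 ^ i * θ) 0 < (1 + γ') / 2 := max_lt h1 (by linarith)
    have h3 : 1 - 2 ^ i * θ ≤ max (1 - 2 ^ i * θ) 0 := le_max_left _ _
    have h4 : 0 ≤ max (1 - 2 ^ i * θ) 0 := le_max_right _ _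
    have h5 := ih γ (by linarith) (by linarith)
    exact step {0} k (s + i) M (by omega) η γ γ' (by linarith) (by linarith) h5

/-- finite total measure of the missed reals excludes large missed reals -/
theorem no_large (A : Set ℝ) (k s M : ℕ) (η : ℝ) (hη : 0 < η) (a : Fin s → ℝ)
    (h : W A k s M η 0 a ≠ ⊤) : ∃ T : ℝ, ∀ τ : ℝ, T ≤ τ → τ ∉ B A k s M (2 * η) a := by
  have h1 : ∑' m : ℕ, V A k s M η a m ≠ ⊤ := by
    have : W A k s M η 0 a = ∑' m : ℕ, V A k s M η a m := by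
      unfold W
      simp
    rwa [this] at h
  have h2 := ENNReal.tendsto_atTop_zero_of_tsum_ne_top h1
  have h3 : ∀ᶠ m : ℕ in atTop, V A k s M η a m < ENNReal.ofReal (η / 3) :=
    h2.eventually (gt_mem_nhds (by positivity))
  have h4 : ∀ᶠ m : ℕ in atTop, η ≤ (2 : ℝ) ^ m :=
    (tendsto_pow_atTop_atTop_of_one_lt (by norm_num : (1 : ℝ) < 2)).eventually_ge_atTop η
  obtain ⟨m1, hm1⟩ := eventually_atTop.mp (h3.and h4)
  refine ⟨(2 : ℝ) ^ m1, fun τ hτ hB => ?_⟩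
  have hτ1 : (1 : ℝ) ≤ τ := le_trans (one_le_pow₀ (by norm_num)) hτ
  obtain ⟨m, hm, hm'⟩ := exists_nat_pow_near hτ1 (by norm_num : (1 : ℝ) < 2)
  have hmm : m1 ≤ m := by
    by_contra hcon
    push Not at hcon
    have : (2 : ℝ) ^ (m + 1) ≤ 2 ^ m1 := pow_le_pow_right₀ (by norm_num) (by omega)
    linarith
  obtain ⟨a1, a2⟩ := hm1 m hmm
  obtain ⟨a3, -⟩ := hm1 (m + 1) (by omega)
  have hsub : Icc τ (τ + η) ⊆ (B A k s M η a ∩ D m) ∪ (B A k s M η a ∩ D (m + 1)) := by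
    intro y hy
    have hyB : y ∈ B A k s M η a := B_near hB (by
      rw [abs_of_nonneg (by linarith [hy.1])]
      linarith [hy.2])
    by_cases h5 : y < 2 ^ (m + 1)
    · exact Or.inl ⟨hyB, by linarith [hy.1], h5⟩
    · refine Or.inr ⟨hyB, not_lt.1 h5, ?_⟩
      have e1 : (2 : ℝ) ^ (m + 1 + 1) = 2 ^ (m + 1) + 2 * 2 ^ m := by ring
      have e2 : (0 : ℝ) < 2 ^ m := by positivity
      rw [e1]
      linarith [hy.2]
  have h6 : ENNReal.ofReal η ≤ ENNReal.ofReal (η / 3) + ENNReal.ofReal (η / 3) := by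
    calc ENNReal.ofReal η = volume (Icc τ (τ + η)) := by
          rw [Real.volume_Icc]; congr 1; ring
      _ ≤ _ := (measure_mono hsub).trans ((measure_union_le _ _).trans
            (add_le_add a1.le a3.le))
  rw [← ENNReal.ofReal_add (by positivity) (by positivity)] at h6
  have h7 := (ENNReal.ofReal_le_ofReal_iff (by positivity)).mp h6
  linarith

theorem ae_cube (k s j : ℕ) (hk : 4 ≤ k) (hs : k + 1 ≤ s) (hj : (k : ℝ) < 2 ^ j * ((s : ℝ) - k)) :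
    ∀ᵐ a ∂Pool.H19.Wa.PP (s + j), ∀ M : ℕ, ∀ η : ℝ, 0 < η →
      ∃ T : ℝ, ∀ τ : ℝ, T ≤ τ → τ ∉ B {0} k (s + j) M η a := by
  have hk0 : (0 : ℝ) < k := by exact_mod_cast (by omega : 0 < k)
  have h1 : ∀ M i : ℕ, ∀ᵐ a ∂Pool.H19.Wa.PP (s + j),
      W {0} k (s + j) M (1 / ((i : ℝ) + 1) / 2) 0 a ≠ ⊤ := by
    intro M i
    refine chain k s M hk hs _ (by positivity) j 0 le_rfl ?_
    have : 1 < 2 ^ j * (((s : ℝ) - k) / k) := by
      rw [← mul_div_assoc, lt_div_iff₀ hk0, one_mul]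
      exact hj
    linarith
  have h2 := ae_all_iff.mpr (fun M => ae_all_iff.mpr (h1 M))
  filter_upwards [h2] with a ha M η hη
  obtain ⟨i, hi⟩ := exists_nat_one_div_lt hη
  obtain ⟨T, hT⟩ := no_large {0} k (s + j) M _ (by positivity) a (ha M i)
  refine ⟨T, fun τ hτ hB => hT τ hτ ?_⟩
  intro m hm x hx
  have := hB m hm x hx
  linarith

/-- the exceptional set of shifts -/
theorem exc (k s : ℕ) (hk : 4 ≤ k) (hs : k + Nat.log 2 k + 2 ≤ s) :
    volume {a : Fin s → ℝ | ¬ ∀ η : ℝ, 0 < η → ∃ T : ℝ, ∀ τ : ℝ, T ≤ τ → ∃ x : Fin s → ℕ,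
      τ ≤ ∑ i, ((x i : ℝ) + a i) ^ k ∧ ∑ i, ((x i : ℝ) + a i) ^ k < τ + η} = 0 := by
  obtain ⟨s1, rfl⟩ : ∃ s1, s = s1 + (Nat.log 2 k + 1) := ⟨s - (Nat.log 2 k + 1), by omega⟩
  set j := Nat.log 2 k + 1 with hj
  set s := s1 + j with hsdef
  have hs1 : k + 1 ≤ s1 := by omega
  have hkj : (k : ℝ) < 2 ^ j * ((s1 : ℝ) - k) := by
    have h1 : k < 2 ^ j := Nat.lt_pow_succ_log_self (by norm_num) k
    have h2 : (k : ℝ) < 2 ^ j := by exact_mod_cast h1
    have h3 : (k : ℝ) + 1 ≤ s1 := by exact_mod_cast hs1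
    have h4 : (0 : ℝ) < 2 ^ j := by positivity
    nlinarith
  have hae := ae_cube k s1 j hk hs1 hkj
  rw [← hsdef] at hae
  set good : (Fin s → ℝ) → Prop := fun a => ∀ M : ℕ, ∀ η : ℝ, 0 < η →
      ∃ T : ℝ, ∀ τ : ℝ, T ≤ τ → τ ∉ B {0} k s M η a with hgood
  set N0 : Set (Fin s → ℝ) := {a | (∀ i, a i ∈ Icc (0 : ℝ) 1) ∧ ¬ good a} with hN0
  have hN0m : volume N0 = 0 := by
    have hPP : Pool.H19.Wa.PP s = (volume : Measure (Fin s → ℝ)).restrict
        (Set.pi univ (fun _ => Icc (0 : ℝ) 1)) := by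
      unfold Pool.H19.Wa.PP
      rw [volume_pi, Measure.restrict_pi_pi]
    rw [hPP, ae_restrict_iff' (MeasurableSet.univ_pi (fun _ => measurableSet_Icc))] at hae
    have h5 := measure_mono_null (s := N0) (t := {a | ¬ (a ∈ Set.pi univ (fun _ => Icc (0 : ℝ) 1) →
      good a)}) (μ := (volume : Measure (Fin s → ℝ))) ?_ hae
    · exact h5
    · intro a ha hcon
      exact ha.2 (hcon (fun i _ => ha.1 i))
  have hsub : {a : Fin s → ℝ | ¬ ∀ η : ℝ, 0 < η → ∃ T : ℝ, ∀ τ : ℝ, T ≤ τ → ∃ x : Fin s → ℕ,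
      τ ≤ ∑ i, ((x i : ℝ) + a i) ^ k ∧ ∑ i, ((x i : ℝ) + a i) ^ k < τ + η} ⊆
      ⋃ m : Fin s → ℤ, (fun a : Fin s → ℝ => a + (fun i => -(m i : ℝ))) ⁻¹' N0 := by
    intro a ha
    rw [mem_iUnion]
    refine ⟨fun i => ⌊a i⌋, ?_⟩
    have hfr : a + (fun i => -((⌊a i⌋ : ℤ) : ℝ)) = fun i => Int.fract (a i) := by
      funext i
      simp only [Pi.add_apply, Int.fract]
      ring
    show a + (fun i => -((⌊a i⌋ : ℤ) : ℝ)) ∈ N0
    rw [hfr]
    refine ⟨fun i => ⟨Int.fract_nonneg _, (Int.fract_lt_one _).le⟩, fun hg => ha ?_⟩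
    intro η hη
    set M : ℕ := ∑ i, (⌊a i⌋).natAbs with hM
    obtain ⟨T, hT⟩ := hg M (η / 2) (by positivity)
    refine ⟨T, fun τ hτ => ?_⟩
    have h6 := hT (τ + η / 2) (by linarith)
    have h7 : ∃ x : Fin s → ℕ, (∀ i, M ≤ x i) ∧
        |∑ i, ((x i : ℝ) + Int.fract (a i)) ^ k - (τ + η / 2)| < η / 2 := by
      by_contra hcon
      push Not at hcon
      apply h6
      intro m hm x hx
      rw [mem_singleton_iff.mp hm, zero_add]
      exact hcon x hx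
    obtain ⟨x, hx1, hx2⟩ := h7
    have hx3 : ∀ i, ((((x i : ℤ) - ⌊a i⌋).toNat : ℕ) : ℝ) + a i = (x i : ℝ) + Int.fract (a i) := by
      intro i
      have h8 : (⌊a i⌋).natAbs ≤ M := by
        rw [hM]
        exact Finset.single_le_sum (f := fun i => (⌊a i⌋).natAbs) (fun _ _ => Nat.zero_le _)
          (Finset.mem_univ i)
      have h9 : 0 ≤ (x i : ℤ) - ⌊a i⌋ := by
        have := hx1 i
        omega
      have h10 : ((((x i : ℤ) - ⌊a i⌋).toNat : ℕ) : ℝ) = (x i : ℝ) - ⌊a i⌋ := by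
        have : ((((x i : ℤ) - ⌊a i⌋).toNat : ℤ) : ℝ) = (((x i : ℤ) - ⌊a i⌋ : ℤ) : ℝ) := by
          rw [Int.toNat_of_nonneg h9]
        push_cast at this
        exact_mod_cast this
      rw [h10, Int.fract]
      ring
    refine ⟨fun i => ((x i : ℤ) - ⌊a i⌋).toNat, ?_⟩
    simp only [hx3]
    rw [abs_lt] at hx2
    constructor <;> linarith [hx2.1, hx2.2]
  refine measure_mono_null hsub ?_
  rw [measure_iUnion_null_iff]
  intro m
  rw [measure_preimage_add_right]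
  exact hN0m

end Pool.H48.Ws
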