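import Pool.Agent.H48.Ws.Double

/-!
# One more independent shift

From `W γ < ∞` almost surely to `W γ' < ∞` almost surely for one more shift, if `0 < γ`, `2 γ - 1 < γ'`.
-/

set_option autoImplicit false

namespace Pool.H48.Ws

open MeasureTheory Set Filter Topology

/-- parameters for the doubling lemma -/
theorem params (k M : ℕ) (hk : 2 ≤ k) : ∃ m0 : ℕ, ∀ m : ℕ, m0 ≤ m → ∃ X d n : ℕ,
    (X : ℝ) ^ k ≤ 2 ^ m ∧ 1 ≤ d ∧ M + n + d ≤ X ∧
    (2 : ℝ) ^ m / 16 ^ k ≤ n * (k * (d : ℝ) ^ (k - 1)) := by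
  have hk0 : (0 : ℝ) < k := by exact_mod_cast (by omega : 0 < k)
  refine ⟨k * (4 * M + 9), fun m hm => ?_⟩
  set y : ℝ := (2 : ℝ) ^ ((m : ℝ) / k) with hy
  have hy0 : 0 < y := by positivity
  have hyk : y ^ k = 2 ^ m := by
    rw [hy, ← Real.rpow_natCast, ← Real.rpow_mul (by norm_num), div_mul_cancel₀ _ hk0.ne',
      Real.rpow_natCast]
  have hybig : ((4 * M + 9 : ℕ) : ℝ) ≤ y := by
    have h1 : ((4 * M + 9 : ℕ) : ℝ) ≤ (m : ℝ) / k := by
      rw [le_div_iff₀ hk0]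
      have : ((k * (4 * M + 9) : ℕ) : ℝ) ≤ m := by exact_mod_cast hm
      push_cast at this ⊢
      linarith
    have h2 : ((4 * M + 9 : ℕ) : ℝ) < (2 : ℝ) ^ (4 * M + 9) := by
      exact_mod_cast (Nat.lt_two_pow_self (n := 4 * M + 9))
    calc ((4 * M + 9 : ℕ) : ℝ) ≤ (2 : ℝ) ^ (4 * M + 9) := h2.le
      _ = (2 : ℝ) ^ (((4 * M + 9 : ℕ) : ℝ)) := (Real.rpow_natCast _ _).symm
      _ ≤ y := by
          rw [hy]
          exact Real.rpow_le_rpow_of_exponent_le (by norm_num) h1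
  set X : ℕ := ⌊y⌋₊ with hX
  have hXy : (X : ℝ) ≤ y := Nat.floor_le hy0.le
  have hXy' : y < X + 1 := Nat.lt_floor_add_one y
  have hXbig : 4 * M + 9 ≤ X := Nat.le_floor hybig
  refine ⟨X, X / 2, X / 4, ?_, by omega, by omega, ?_⟩
  · rw [← hyk]
    exact pow_le_pow_left₀ (by positivity) hXy k
  · have h1 : (X : ℝ) / 8 ≤ ((X / 4 : ℕ) : ℝ) := by
      have : X ≤ 8 * (X / 4) := by omega
      have h : (X : ℝ) ≤ 8 * ((X / 4 : ℕ) : ℝ) := by exact_mod_cast this
      linarith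
    have h2 : (X : ℝ) / 8 ≤ ((X / 2 : ℕ) : ℝ) := by
      have : X ≤ 8 * (X / 2) := by omega
      have h : (X : ℝ) ≤ 8 * ((X / 2 : ℕ) : ℝ) := by exact_mod_cast this
      linarith
    have hX0 : (0 : ℝ) ≤ X := by positivity
    have h3 : y / 2 ≤ X := by
      have : (9 : ℝ) ≤ X := by
        have : 9 ≤ X := by omega
        exact_mod_cast this
      linarith
    have h4 : (2 : ℝ) ^ m / 16 ^ k ≤ ((X : ℝ) / 8) ^ k := by
      have h5 : (2 : ℝ) ^ m / 16 ^ k = (y / 2 / 8) ^ k := by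
        rw [← hyk, div_div, div_pow]
        norm_num
      rw [h5]
      apply pow_le_pow_left₀ (by positivity)
      linarith
    have h6 : ((X : ℝ) / 8) ^ k = ((X : ℝ) / 8) * ((X : ℝ) / 8) ^ (k - 1) := by
      conv_lhs => rw [show k = (k - 1) + 1 by omega, pow_succ]
      ring
    have h7 : (1 : ℝ) ≤ k := by exact_mod_cast (by omega : 1 ≤ k)
    have h8 : ((X : ℝ) / 8) ^ (k - 1) ≤ k * (((X / 2 : ℕ) : ℝ)) ^ (k - 1) := by
      calc ((X : ℝ) / 8) ^ (k - 1) ≤ (((X / 2 : ℕ) : ℝ)) ^ (k - 1) :=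
            pow_le_pow_left₀ (by positivity) h2 _
        _ = 1 * (((X / 2 : ℕ) : ℝ)) ^ (k - 1) := (one_mul _).symm
        _ ≤ _ := by gcongr
    rw [h6] at h4
    refine h4.trans ?_
    exact mul_le_mul h1 h8 (by positivity) (by positivity)

/-- the missed reals in [0, 2^(m+1)) -/
theorem total_le (A : Set ℝ) (k s M : ℕ) (η γ : ℝ) (hγ : 0 < γ) (a : Fin s → ℝ)
    (h : W A k s M η γ a ≠ ⊤) : ∃ K : ENNReal, K ≠ ⊤ ∧ ∀ m : ℕ,
      volume (B A k s M η a ∩ Ico 0 (2 ^ (m + 1))) ≤ K * ENNReal.ofReal ((2 : ℝ) ^ (γ * m)) := by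
  set w := W A k s M η γ a with hw
  have h2γ : (1 : ℝ) < (2 : ℝ) ^ γ := Real.one_lt_rpow (by norm_num) hγ
  set q : ℝ := (2 : ℝ) ^ γ with hq
  have hq0 : 0 < q := by linarith
  have hqm : ∀ m : ℕ, (2 : ℝ) ^ (γ * m) = q ^ m := by
    intro m
    rw [hq, Real.rpow_mul (by norm_num), Real.rpow_natCast]
  have hV : ∀ i : ℕ, V A k s M η a i ≤ w * ENNReal.ofReal (q ^ i) := by
    intro i
    have h1 : ENNReal.ofReal ((2 : ℝ) ^ (-(γ * i))) * V A k s M η a i ≤ w :=
      ENNReal.le_tsum (f := fun m : ℕ => ENNReal.ofReal ((2 : ℝ) ^ (-(γ * m))) * V A k s M η a m) i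
    have h2 : ENNReal.ofReal ((2 : ℝ) ^ (-(γ * i))) * ENNReal.ofReal (q ^ i) = 1 := by
      rw [← ENNReal.ofReal_mul (by positivity), Real.rpow_neg (by norm_num), hqm,
        inv_mul_cancel₀ (by positivity), ENNReal.ofReal_one]
    calc V A k s M η a i = (ENNReal.ofReal ((2 : ℝ) ^ (-(γ * i))) * ENNReal.ofReal (q ^ i)) *
          V A k s M η a i := by rw [h2, one_mul]
      _ = (ENNReal.ofReal ((2 : ℝ) ^ (-(γ * i))) * V A k s M η a i) * ENNReal.ofReal (q ^ i) := by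
          ring
      _ ≤ w * ENNReal.ofReal (q ^ i) := by gcongr
  have hind : ∀ m : ℕ, volume (B A k s M η a ∩ Ico 0 (2 ^ (m + 1))) ≤
      1 + w * ENNReal.ofReal (∑ i ∈ Finset.range (m + 1), q ^ i) := by
    intro m
    induction m with
    | zero =>
      have hsub : B A k s M η a ∩ Ico 0 (2 ^ (0 + 1)) ⊆ Ico (0 : ℝ) 1 ∪ (B A k s M η a ∩ D 0) := by
        rintro τ ⟨h1, h2, h3⟩
        by_cases h4 : τ < 1
        · exact Or.inl ⟨h2, h4⟩
        · exact Or.inr ⟨h1, by simpa using not_lt.1 h4, h3⟩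
      refine (measure_mono hsub).trans ((measure_union_le _ _).trans ?_)
      have h0 : volume (Ico (0 : ℝ) 1) = 1 := by rw [Real.volume_Ico]; simp
      rw [h0]
      have := hV 0
      simpa [V] using this
    | succ m ih =>
      have hsub : B A k s M η a ∩ Ico 0 (2 ^ (m + 1 + 1)) ⊆
          (B A k s M η a ∩ Ico 0 (2 ^ (m + 1))) ∪ (B A k s M η a ∩ D (m + 1)) := by
        rintro τ ⟨h1, h2, h3⟩
        by_cases h4 : τ < 2 ^ (m + 1)
        · exact Or.inl ⟨h1, h2, h4⟩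
        · exact Or.inr ⟨h1, not_lt.1 h4, h3⟩
      refine (measure_mono hsub).trans ((measure_union_le _ _).trans ?_)
      rw [Finset.sum_range_succ, ENNReal.ofReal_add (by positivity) (by positivity), mul_add,
        ← add_assoc]
      exact add_le_add ih (hV (m + 1))
  refine ⟨1 + w * ENNReal.ofReal (q / (q - 1)), ?_, fun m => ?_⟩
  · exact ENNReal.add_ne_top.mpr ⟨ENNReal.one_ne_top, ENNReal.mul_ne_top h ENNReal.ofReal_ne_top⟩
  · refine (hind m).trans ?_
    rw [hqm, add_mul, one_mul]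
    apply add_le_add
    · rw [← ENNReal.ofReal_one]
      exact ENNReal.ofReal_le_ofReal (one_le_pow₀ h2γ.le)
    · rw [mul_assoc, ← ENNReal.ofReal_mul (by have : 0 < q - 1 := by linarith
                                              positivity)]
      gcongr
      rw [geom_sum_eq h2γ.ne', div_mul_eq_mul_div]
      apply div_le_div_of_nonneg_right _ (by linarith)
      rw [pow_succ]
      linarith

/-- the average over one more shift -/
theorem step_fixed (A : Set ℝ) (k s M : ℕ) (hk : 2 ≤ k) (η γ γ' : ℝ) (hγ : 0 < γ)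
    (hγ' : 2 * γ - 1 < γ') (a : Fin s → ℝ) (h : W A k s M η γ a ≠ ⊤) :
    ∀ᵐ b ∂(volume : Measure ℝ).restrict (Icc (0 : ℝ) 1),
      W A k (s + 1) M η γ' (Fin.cons b a) ≠ ⊤ := by
  obtain ⟨K, hK, hvol⟩ := total_le A k s M η γ hγ a h
  obtain ⟨m0, hm0⟩ := params k M hk
  have hcons : Measurable (fun b : ℝ => (Fin.cons b a : Fin (s + 1) → ℝ)) := by
    refine measurable_pi_lambda _ (fun i => ?_)
    refine Fin.cases ?_ (fun j => ?_) i
    · simp only [Fin.cons_zero]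
      exact measurable_id
    · simp
  have hVm : ∀ m, Measurable (fun b : ℝ => V A k (s + 1) M η (Fin.cons b a) m) :=
    fun m => (measurable_V A k (s + 1) M η m).comp hcons
  rw [← restrict_Ico_eq_restrict_Icc]
  -- the integral of one term
  have hI : ∀ m, m0 ≤ m → ∫⁻ b in Ico (0 : ℝ) 1, V A k (s + 1) M η (Fin.cons b a) m ≤
      K ^ 2 * ENNReal.ofReal (16 ^ k) * ENNReal.ofReal ((2 : ℝ) ^ ((2 * γ - 1) * m)) := by
    intro m hm
    obtain ⟨X, d, n, h1, h2, h3, h4⟩ := hm0 m hm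
    have h5 := double A k s M hk η a m X d n h1 h2 h3
    set I := ∫⁻ b in Ico (0 : ℝ) 1, V A k (s + 1) M η (Fin.cons b a) m with hIdef
    have h6 : ENNReal.ofReal ((2 : ℝ) ^ m / 16 ^ k) * I ≤
        (K * ENNReal.ofReal ((2 : ℝ) ^ (γ * m))) ^ 2 := by
      calc ENNReal.ofReal ((2 : ℝ) ^ m / 16 ^ k) * I
          ≤ ((n : ENNReal) * ENNReal.ofReal ((k : ℝ) * (d : ℝ) ^ (k - 1))) * I := by
            gcongr
            rw [← ENNReal.ofReal_natCast, ← ENNReal.ofReal_mul (by positivity)]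
            exact ENNReal.ofReal_le_ofReal h4
        _ ≤ _ := h5
        _ ≤ _ := by
            gcongr
            exact hvol m
    have h7 : ENNReal.ofReal (16 ^ k / (2 : ℝ) ^ m) * ENNReal.ofReal ((2 : ℝ) ^ m / 16 ^ k) = 1 := by
      rw [← ENNReal.ofReal_mul (by positivity)]
      have : (16 : ℝ) ^ k / 2 ^ m * (2 ^ m / 16 ^ k) = 1 := by field_simp
      rw [this, ENNReal.ofReal_one]
    calc I = ENNReal.ofReal (16 ^ k / (2 : ℝ) ^ m) * (ENNReal.ofReal ((2 : ℝ) ^ m / 16 ^ k) * I) := by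
          rw [← mul_assoc, h7, one_mul]
      _ ≤ ENNReal.ofReal (16 ^ k / (2 : ℝ) ^ m) * (K * ENNReal.ofReal ((2 : ℝ) ^ (γ * m))) ^ 2 := by
          gcongr
      _ = K ^ 2 * (ENNReal.ofReal (16 ^ k / (2 : ℝ) ^ m) *
            (ENNReal.ofReal ((2 : ℝ) ^ (γ * m)) * ENNReal.ofReal ((2 : ℝ) ^ (γ * m)))) := by ring
      _ = K ^ 2 * (ENNReal.ofReal (16 ^ k) * ENNReal.ofReal ((2 : ℝ) ^ ((2 * γ - 1) * m))) := by
          congr 1
          rw [← ENNReal.ofReal_mul (by positivity), ← ENNReal.ofReal_mul (by positivity),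
            ← ENNReal.ofReal_mul (by positivity)]
          congr 1
          rw [← Real.rpow_add (by norm_num), div_mul_eq_mul_div, mul_div_assoc]
          congr 1
          rw [← Real.rpow_natCast 2 m, ← Real.rpow_sub (by norm_num)]
          congr 1
          ring
      _ = _ := by ring
  have hfin : ∫⁻ b in Ico (0 : ℝ) 1, W A k (s + 1) M η γ' (Fin.cons b a) ≠ ⊤ := by
    unfold W
    rw [lintegral_tsum (fun m => ((hVm m).const_mul _).aemeasurable)]
    have hterm : ∀ m : ℕ, ∫⁻ b in Ico (0 : ℝ) 1, ENNReal.ofReal ((2 : ℝ) ^ (-(γ' * m))) *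
        V A k (s + 1) M η (Fin.cons b a) m = ENNReal.ofReal ((2 : ℝ) ^ (-(γ' * m))) *
        ∫⁻ b in Ico (0 : ℝ) 1, V A k (s + 1) M η (Fin.cons b a) m :=
      fun m => lintegral_const_mul _ (hVm m)
    simp only [hterm]
    rw [← Summable.sum_add_tsum_nat_add' (k := m0) ENNReal.summable]
    apply ENNReal.add_ne_top.mpr
    constructor
    · rw [ENNReal.sum_ne_top]
      intro m _
      apply ENNReal.mul_ne_top ENNReal.ofReal_ne_top
      have h8 : ∫⁻ b in Ico (0 : ℝ) 1, V A k (s + 1) M η (Fin.cons b a) m ≤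
          ∫⁻ _b in Ico (0 : ℝ) 1, ENNReal.ofReal ((2 : ℝ) ^ m) :=
        lintegral_mono (fun b => V_le A k (s + 1) M η (Fin.cons b a) m)
      refine ne_top_of_le_ne_top ?_ h8
      rw [setLIntegral_const]
      exact ENNReal.mul_ne_top ENNReal.ofReal_ne_top (by rw [Real.volume_Ico]; simp)
    · set r : ℝ := (2 : ℝ) ^ (2 * γ - 1 - γ') with hr
      have hr0 : 0 < r := by positivity
      have hr1 : r < 1 := Real.rpow_lt_one_of_one_lt_of_neg (by norm_num) (by linarith)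
      have h9 : ∀ m : ℕ, ENNReal.ofReal ((2 : ℝ) ^ (-(γ' * ((m + m0 : ℕ) : ℝ)))) *
          ∫⁻ b in Ico (0 : ℝ) 1, V A k (s + 1) M η (Fin.cons b a) (m + m0) ≤
          (K ^ 2 * ENNReal.ofReal (16 ^ k)) * ENNReal.ofReal (r ^ (m + m0)) := by
        intro m
        calc _ ≤ ENNReal.ofReal ((2 : ℝ) ^ (-(γ' * ((m + m0 : ℕ) : ℝ)))) *
              (K ^ 2 * ENNReal.ofReal (16 ^ k) *
                ENNReal.ofReal ((2 : ℝ) ^ ((2 * γ - 1) * ((m + m0 : ℕ) : ℝ)))) := by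
              gcongr
              exact hI (m + m0) (by omega)
          _ = (K ^ 2 * ENNReal.ofReal (16 ^ k)) *
              (ENNReal.ofReal ((2 : ℝ) ^ (-(γ' * ((m + m0 : ℕ) : ℝ)))) *
                ENNReal.ofReal ((2 : ℝ) ^ ((2 * γ - 1) * ((m + m0 : ℕ) : ℝ)))) := by ring
          _ = _ := by
              congr 1
              rw [← ENNReal.ofReal_mul (by positivity), ← Real.rpow_add (by norm_num), hr,
                ← Real.rpow_natCast, ← Real.rpow_mul (by norm_num)]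
              congr 2
              ring
      refine ne_top_of_le_ne_top ?_ (ENNReal.tsum_le_tsum h9)
      rw [ENNReal.tsum_mul_left]
      apply ENNReal.mul_ne_top (ENNReal.mul_ne_top (by simp [hK]) ENNReal.ofReal_ne_top)
      apply Summable.tsum_ofReal_ne_top
      have : Summable (fun m : ℕ => r ^ m) := summable_geometric_of_lt_one hr0.le hr1
      exact (summable_nat_add_iff m0).2 this
  have hWm : Measurable (fun b : ℝ => W A k (s + 1) M η γ' (Fin.cons b a)) :=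
    (measurable_W A k (s + 1) M η γ').comp hcons
  filter_upwards [ae_lt_top hWm hfin] with b hb
  exact hb.ne

theorem step (A : Set ℝ) (k s M : ℕ) (hk : 2 ≤ k) (η γ γ' : ℝ) (hγ : 0 < γ)
    (hγ' : 2 * γ - 1 < γ') (h : ∀ᵐ a ∂Pool.H19.Wa.PP s, W A k s M η γ a ≠ ⊤) :
    ∀ᵐ a ∂Pool.H19.Wa.PP (s + 1), W A k (s + 1) M η γ' a ≠ ⊤ := by
  set μ : Measure ℝ := (volume : Measure ℝ).restrict (Icc (0 : ℝ) 1) with hμ
  have hconsm : Measurable (fun p : ℝ × (Fin s → ℝ) => (Fin.cons p.1 p.2 : Fin (s + 1) → ℝ)) := by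
    refine measurable_pi_lambda _ (fun i => ?_)
    refine Fin.cases ?_ (fun j => ?_) i
    · simpa using measurable_fst
    · simp only [Fin.cons_succ]
      exact (measurable_pi_apply j).comp measurable_snd
  have hms : MeasurableSet {p : ℝ × (Fin s → ℝ) |
      W A k (s + 1) M η γ' (Fin.cons p.1 p.2) ≠ ⊤} := by
    have h1 : Measurable (fun p : ℝ × (Fin s → ℝ) => W A k (s + 1) M η γ' (Fin.cons p.1 p.2)) :=
      (measurable_W A k (s + 1) M η γ').comp hconsm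
    exact h1 (measurableSet_singleton ⊤).compl
  have h2 : ∀ᵐ a ∂Pool.H19.Wa.PP s, ∀ᵐ b ∂μ, W A k (s + 1) M η γ' (Fin.cons b a) ≠ ⊤ := by
    filter_upwards [h] with a ha
    exact step_fixed A k s M hk η γ γ' hγ hγ' a ha
  have h3 : ∀ᵐ b ∂μ, ∀ᵐ a ∂Pool.H19.Wa.PP s, W A k (s + 1) M η γ' (Fin.cons b a) ≠ ⊤ :=
    (Measure.ae_ae_comm (μ := μ) (ν := Pool.H19.Wa.PP s)
      (p := fun b a => W A k (s + 1) M η γ' (Fin.cons b a) ≠ ⊤) hms).2 h2
  have h4 : ∀ᵐ p ∂μ.prod (Pool.H19.Wa.PP s), W A k (s + 1) M η γ' (Fin.cons p.1 p.2) ≠ ⊤ :=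
    (Measure.ae_prod_iff_ae_ae hms).2 h3
  have hmp := measurePreserving_piFinSuccAbove (fun _ : Fin (s + 1) => μ) 0
  have h5 := hmp.quasiMeasurePreserving.ae (p := fun p : ℝ × (Fin s → ℝ) =>
    W A k (s + 1) M η γ' (Fin.cons p.1 p.2) ≠ ⊤) h4
  have h6 : Pool.H19.Wa.PP (s + 1) = Measure.pi (fun _ : Fin (s + 1) => μ) := rfl
  rw [h6]
  filter_upwards [h5] with a ha
  have h7 : (Fin.cons (MeasurableEquiv.piFinSuccAbove (fun _ : Fin (s + 1) => ℝ) 0 a).1
      (MeasurableEquiv.piFinSuccAbove (fun _ : Fin (s + 1) => ℝ) 0 a).2 : Fin (s + 1) → ℝ) = a := by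
    funext i
    refine Fin.cases ?_ (fun j => ?_) i
    · simp [MeasurableEquiv.piFinSuccAbove]
    · simp [MeasurableEquiv.piFinSuccAbove, Fin.tail]
  rw [h7] at ha
  exact ha

end Pool.H48.Ws
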